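import Pool.Agent.Helper28_TP.StS

/-!
# Squad TP, module PSL: union of the layers
-/

set_option autoImplicit false

namespace Pool.Agent.TP.H31

variable {α : Type} [DecidableEq α]

theorem PS_insert {V : Finset α} {a : α} (ha : a ∉ V) (q : α → ℝ) (E : Finset α → Prop) :
    PS (insert a V) q E =
      q a * PS V q (fun A => E (insert a A)) + (1 - q a) * PS V q E := by
  classical
  rw [PS_def, PS_def, PS_def, EX_insert ha]

theorem EX_isEmpty (V : Finset α) (q : α → ℝ) :
    EX V q (fun A => if A = ∅ then (1 : ℝ) else 0) = ∏ a ∈ V, (1 - q a) := by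
  unfold EX
  rw [Finset.sum_eq_single ∅]
  · simp [wt]
  · intro b _ hb
    simp [hb]
  · intro h
    exact absurd (Finset.empty_mem_powerset V) h

theorem psl_aux (K : ℕ) (q : α × ℕ → ℝ) (V : Finset α) : ∀ E : Finset α → Prop,
    PS (V ×ˢ Finset.range (K + 1)) q (fun A => E (A.image Prod.fst)) =
      PS V (fun a => 1 - ∏ j ∈ Finset.range (K + 1), (1 - q (a, j))) E := by
  classical
  induction V using Finset.induction_on with
  | empty =>
    intro E
    rw [PS_def, PS_def, Finset.empty_product, EX_empty, EX_empty, Finset.image_empty]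
  | insert a V ha ih =>
    intro E
    set R := Finset.range (K + 1) with hR
    have hWu : (insert a V) ×ˢ R = (({a} : Finset α) ×ˢ R) ∪ (V ×ˢ R) := by
      rw [← Finset.union_product, Finset.insert_eq]
    have hdis : Disjoint (({a} : Finset α) ×ˢ R) (V ×ˢ R) := by
      rw [Finset.disjoint_left]
      rintro ⟨x, j⟩ hx hx'
      rw [Finset.mem_product] at hx hx'
      have h1 := Finset.mem_singleton.1 hx.1
      exact ha (h1 ▸ hx'.1)
    rw [PS_insert ha, PS_def, hWu]
    have h1 : EX ((({a} : Finset α) ×ˢ R) ∪ (V ×ˢ R)) q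
        (fun A => if E (A.image Prod.fst) then (1 : ℝ) else 0) =
        EX ((({a} : Finset α) ×ˢ R) ∪ (V ×ˢ R)) q
        (fun A => (fun B C : Finset (α × ℕ) =>
          if E (B.image Prod.fst ∪ C.image Prod.fst) then (1 : ℝ) else 0)
          (A ∩ (({a} : Finset α) ×ˢ R)) (A ∩ (V ×ˢ R))) := by
      refine EX_congr (fun _ _ => rfl) fun A hA => ?_
      have h2 : A.image Prod.fst = (A ∩ (({a} : Finset α) ×ˢ R)).image Prod.fst ∪
          (A ∩ (V ×ˢ R)).image Prod.fst := by
        rw [← Finset.image_union, ← Finset.inter_union_distrib_left, Finset.inter_eq_left.2 hA]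
      simp only [← h2]
    rw [h1, EX_union hdis q (fun B C : Finset (α × ℕ) =>
          if E (B.image Prod.fst ∪ C.image Prod.fst) then (1 : ℝ) else 0)]
    have h3 : EX (({a} : Finset α) ×ˢ R) q (fun B => EX (V ×ˢ R) q (fun C =>
        if E (B.image Prod.fst ∪ C.image Prod.fst) then (1 : ℝ) else 0)) =
        EX (({a} : Finset α) ×ˢ R) q (fun B =>
          PS V (fun a => 1 - ∏ j ∈ R, (1 - q (a, j))) (fun A => E (insert a A)) +
          (PS V (fun a => 1 - ∏ j ∈ R, (1 - q (a, j))) E -
            PS V (fun a => 1 - ∏ j ∈ R, (1 - q (a, j))) (fun A => E (insert a A))) *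
          (if B = ∅ then (1 : ℝ) else 0)) := by
      refine EX_congr (fun _ _ => rfl) fun B hB => ?_
      by_cases hB0 : B = ∅
      · subst hB0
        have h5 : EX (V ×ˢ R) q (fun C =>
            if E ((∅ : Finset (α × ℕ)).image Prod.fst ∪ C.image Prod.fst) then (1 : ℝ) else 0) =
            PS V (fun a => 1 - ∏ j ∈ R, (1 - q (a, j))) E := by
          rw [← ih E, PS_def]
          refine EX_congr (fun _ _ => rfl) fun C _ => ?_
          rw [Finset.image_empty, Finset.empty_union]
        rw [if_pos rfl, mul_one, h5]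
        ring
      · rw [if_neg hB0, mul_zero, add_zero]
        have hBi : B.image Prod.fst = {a} := by
          obtain ⟨x, hx⟩ := Finset.nonempty_iff_ne_empty.2 hB0
          apply Finset.Subset.antisymm
          · intro y hy
            obtain ⟨z, hz, hzy⟩ := Finset.mem_image.1 hy
            rw [← hzy]
            exact (Finset.mem_product.1 (hB hz)).1
          · rw [Finset.singleton_subset_iff, Finset.mem_image]
            exact ⟨x, hx, Finset.mem_singleton.1 (Finset.mem_product.1 (hB hx)).1⟩
        rw [hBi, ← ih (fun A => E (insert a A)), PS_def]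
        refine EX_congr (fun _ _ => rfl) fun C _ => ?_
        rw [← Finset.insert_eq]
    rw [h3, EX_add, EX_const, EX_mul, EX_isEmpty]
    have h4 : ∏ x ∈ (({a} : Finset α) ×ˢ R), (1 - q x) = ∏ j ∈ R, (1 - q (a, j)) := by
      rw [Finset.prod_product, Finset.prod_singleton]
    rw [h4]
    ring

theorem psl : PslStmt := by
  intro α _ V K q E
  exact psl_aux K q V E

end Pool.Agent.TP.H31
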