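import Pool.Agent.Helper28_TP.StS

/-!
# Squad TP, module TOW: the tower property for a stopping set of coordinates
-/

set_option autoImplicit false

namespace Pool.Agent.TP.H31

variable {α : Type} [DecidableEq α]

theorem agree_iff (D A B : Finset α) :
    A ∩ D = B ∩ D ↔ ∀ x ∈ D, (x ∈ A ↔ x ∈ B) := by
  constructor
  · intro h x hx
    have h1 : x ∈ A ∩ D ↔ x ∈ B ∩ D := by rw [h]
    simpa [hx] using h1
  · intro h
    ext x
    by_cases hx : x ∈ D
    · simp [hx, h x hx]
    · simp [hx]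

/-- The weight of the configurations with a given trace on `D`. -/
theorem EX_trace {V D : Finset α} (hD : D ⊆ V) (q : α → ℝ) (B : Finset α) :
    EX V q (fun A => if A ∩ D = B ∩ D then (1 : ℝ) else 0) = wt D q B := by
  rw [EX_marg hD q (fun A' => if A' = B ∩ D then (1 : ℝ) else 0)]
  unfold EX
  rw [Finset.sum_eq_single (B ∩ D)]
  · beta_reduce
    rw [if_pos rfl, mul_one]
    refine wt_congr (fun _ _ => rfl) fun x hx => ?_
    simp [hx]
  · intro C _ hC
    beta_reduce
    rw [if_neg hC, mul_zero]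
  · intro h
    exact absurd (Finset.mem_powerset.2 Finset.inter_subset_right) h

theorem tow_point {V : Finset α} (q : α → ℝ) (Δ : Finset α → Finset α)
    (h1 : ∀ A ⊆ V, Δ A ⊆ V)
    (h2 : ∀ A ⊆ V, ∀ B ⊆ V, (∀ x ∈ Δ A, (x ∈ A ↔ x ∈ B)) → Δ B = Δ A)
    {A B : Finset α} (hA : A ⊆ V) (hB : B ⊆ V) :
    wt V (fun x => if x ∈ Δ A then (if x ∈ A then 1 else 0) else q x) B =
      wt (V \ Δ B) q B * (if A ∩ Δ B = B ∩ Δ B then (1 : ℝ) else 0) := by
  by_cases hag : A ∩ Δ B = B ∩ Δ B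
  · rw [if_pos hag, mul_one]
    have hag' := (agree_iff _ _ _).1 hag
    have hΔ : Δ A = Δ B := h2 B hB A hA fun x hx => (hag' x hx).symm
    unfold wt
    rw [← Finset.prod_sdiff (h1 B hB)]
    have e1 : ∏ x ∈ Δ B, (if x ∈ B then (if x ∈ Δ A then (if x ∈ A then (1 : ℝ) else 0) else q x)
        else 1 - (if x ∈ Δ A then (if x ∈ A then 1 else 0) else q x)) = 1 := by
      refine Finset.prod_eq_one fun x hx => ?_
      have hx' : x ∈ Δ A := hΔ ▸ hx
      have hx2 := hag' x hx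
      by_cases hxB : x ∈ B
      · simp [hx', hxB, hx2.2 hxB]
      · have : x ∉ A := fun h => hxB (hx2.1 h)
        simp [hx', hxB, this]
    rw [e1, mul_one]
    refine Finset.prod_congr rfl fun x hx => ?_
    have hx' : x ∉ Δ A := by
      rw [hΔ]
      exact (Finset.mem_sdiff.1 hx).2
    simp [hx']
  · rw [if_neg hag, mul_zero]
    have hne : ¬ ∀ x ∈ Δ A, (x ∈ A ↔ x ∈ B) := by
      intro h
      have hΔ : Δ B = Δ A := h2 A hA B hB h
      apply hag
      rw [hΔ]
      exact (agree_iff _ _ _).2 h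
    push Not at hne
    obtain ⟨x, hx, hxn⟩ := hne
    refine Finset.prod_eq_zero (h1 A hA hx) ?_
    rcases hxn with ⟨hxA, hxB⟩ | ⟨hxA, hxB⟩
    · simp [hx, hxA, hxB]
    · simp [hx, hxA, hxB]

theorem tow : TowStmt := by
  classical
  intro α _ V q Δ h1 h2 Φ
  have e1 : EX V q (fun A =>
      PS V (fun x => if x ∈ Δ A then (if x ∈ A then 1 else 0) else q x) Φ) =
      ∑ A ∈ V.powerset, ∑ B ∈ V.powerset,
        wt V q A * (wt (V \ Δ B) q B * (if A ∩ Δ B = B ∩ Δ B then (1 : ℝ) else 0) *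
          (if Φ B then (1 : ℝ) else 0)) := by
    unfold EX
    refine Finset.sum_congr rfl fun A hA => ?_
    beta_reduce
    rw [PS_def]
    unfold EX
    rw [Finset.mul_sum]
    refine Finset.sum_congr rfl fun B hB => ?_
    rw [tow_point q Δ h1 h2 (Finset.mem_powerset.1 hA) (Finset.mem_powerset.1 hB)]
  rw [e1, Finset.sum_comm, PS_def]
  unfold EX
  refine Finset.sum_congr rfl fun B hB => ?_
  have hB' := Finset.mem_powerset.1 hB
  have e2 : ∑ A ∈ V.powerset, wt V q A * (wt (V \ Δ B) q B *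
      (if A ∩ Δ B = B ∩ Δ B then (1 : ℝ) else 0) * (if Φ B then (1 : ℝ) else 0)) =
      wt (V \ Δ B) q B * (if Φ B then (1 : ℝ) else 0) *
        EX V q (fun A => if A ∩ Δ B = B ∩ Δ B then (1 : ℝ) else 0) := by
    unfold EX
    rw [Finset.mul_sum]
    exact Finset.sum_congr rfl fun A _ => by ring
  rw [e2, EX_trace (h1 B hB')]
  have e3 : wt (V \ Δ B) q B * wt (Δ B) q B = wt V q B := by
    unfold wt
    exact Finset.prod_sdiff (h1 B hB')
  rw [← e3]
  ring

end Pool.Agent.TP.H31
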